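import Mathlib
import Pool.Agent.Lib_helper60.Ulam3

/-!
# Formal integration of rational combinations of continuous functions

There are three continuous functions `f_1, f_2, f_3`, not all identically zero, such that every
rational combination of them has, on every open interval on which it is defined, an indefinite
integral which is a rational combination of superpositions of `f_1, f_2, f_3`.
-/

set_option autoImplicit false

open Set

namespace Pool.Agent.Results.MP_75b936_an.FormalIntegration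

/-- The expressions obtained from the letters of the alphabet `ι` by finitely many additions,
subtractions, multiplications and divisions. No constants are adjoined. -/
inductive Expr (ι : Type) : Type
  | var (i : ι) : Expr ι
  | add (a b : Expr ι) : Expr ι
  | sub (a b : Expr ι) : Expr ι
  | mul (a b : Expr ι) : Expr ι
  | div (a b : Expr ι) : Expr ι

/-- The value at `x` of an expression, with the letter `i` standing for the function `g i`. -/
noncomputable def Expr.val {ι : Type} (g : ι → ℝ → ℝ) : Expr ι → ℝ → ℝ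
  | .var i, x => g i x
  | .add a b, x => a.val g x + b.val g x
  | .sub a b, x => a.val g x - b.val g x
  | .mul a b, x => a.val g x * b.val g x
  | .div a b, x => a.val g x / b.val g x

/-- The expression is defined at `x`: none of the denominators used vanishes at `x`. -/
def Expr.DefAt {ι : Type} (g : ι → ℝ → ℝ) : Expr ι → ℝ → Prop
  | .var _, _ => True
  | .add a b, x => a.DefAt g x ∧ b.DefAt g x
  | .sub a b, x => a.DefAt g x ∧ b.DefAt g x
  | .mul a b, x => a.DefAt g x ∧ b.DefAt g x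
  | .div a b, x => a.DefAt g x ∧ b.DefAt g x ∧ b.val g x ≠ 0

/-- The superposition `f_{i_1} ∘ f_{i_2} ∘ ⋯ ∘ f_{i_k}` given by a nonempty list of indices. -/
def superposition {n : ℕ} (f : Fin n → ℝ → ℝ) (l : {l : List (Fin n) // l ≠ []}) (x : ℝ) : ℝ :=
  l.1.foldr (fun i y => f i y) x

/-- `F` agrees on `I` with a member of `𝒮(f_1, …, f_n)`: a rational combination, defined on `I`,
of superpositions of the `f_i` (among which are the `f_i` themselves). -/
def AgreesWithS {n : ℕ} (f : Fin n → ℝ → ℝ) (I : Set ℝ) (F : ℝ → ℝ) : Prop :=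
  ∃ e : Expr {l : List (Fin n) // l ≠ []},
    ∀ x ∈ I, e.DefAt (superposition f) x ∧ F x = e.val (superposition f) x

/-- `n`-fold sum of an expression (`n + 1` summands). -/
def nfold {ι : Type} (e : Expr ι) : ℕ → Expr ι
  | 0 => e
  | n + 1 => .add (nfold e n) e

theorem nfold_spec {ι : Type} (g : ι → ℝ → ℝ) (i : ι) (n : ℕ) (x : ℝ) :
    (nfold (.var i) n).DefAt g x ∧ (nfold (.var i) n).val g x = ((n : ℝ) + 1) * g i x := by
  induction n with
  | zero => exact ⟨trivial, by simp [nfold, Expr.val]⟩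
  | succ n ih =>
    refine ⟨⟨ih.1, trivial⟩, ?_⟩
    show (nfold (.var i) n).val g x + g i x = _
    rw [ih.2]
    push_cast
    ring

open Pool.Agent.Lib_helper60.Ulam

/-- the three functions as a family -/
noncomputable def fam (c : ℝ → ℝ) (i : Fin 3) (x : ℝ) : ℝ := vec c x i

theorem fam_cont {c : ℝ → ℝ} (hc : Continuous c) (i : Fin 3) : Continuous (fam c i) := by
  fin_cases i
  · exact s_cont
  · exact p_cont
  · exact hc

theorem foldr_path (c : ℝ → ℝ) (k : ℕ) (x : ℝ) :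
    ((List.replicate k (0 : Fin 3) ++ [1]).foldr (fun j y => fam c j y) x) = g k x := by
  induction k with
  | zero => rfl
  | succ k ih =>
    rw [List.replicate_succ, List.cons_append, List.foldr_cons, ih]
    have : g (k + 1) x = s (g k x) := Function.iterate_succ_apply' _ _ _
    rw [this]
    rfl

/-- every expression is a quotient of polynomials where it is defined -/
theorem quotient (c : ℝ → ℝ) (e : Expr (Fin 3)) : ∃ P Q : MvPolynomial (Fin 3) ℤ,
    ∀ x, e.DefAt (fam c) x → ev c Q x ≠ 0 ∧ e.val (fam c) x = ev c P x / ev c Q x := by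
  have hadd : ∀ (P Q : MvPolynomial (Fin 3) ℤ) x, ev c (P + Q) x = ev c P x + ev c Q x := by
    intro P Q x; simp [ev]
  have hsub : ∀ (P Q : MvPolynomial (Fin 3) ℤ) x, ev c (P - Q) x = ev c P x - ev c Q x := by
    intro P Q x; simp [ev]
  have hmul : ∀ (P Q : MvPolynomial (Fin 3) ℤ) x, ev c (P * Q) x = ev c P x * ev c Q x := by
    intro P Q x; simp [ev]
  induction e with
  | var i =>
    refine ⟨MvPolynomial.X i, 1, fun x _ => ⟨by simp [ev], ?_⟩⟩
    simp [ev, Expr.val, fam]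
  | add a b iha ihb =>
    obtain ⟨P, Q, h⟩ := iha
    obtain ⟨P', Q', h'⟩ := ihb
    refine ⟨P * Q' + P' * Q, Q * Q', fun x hx => ?_⟩
    obtain ⟨h1, h2⟩ := h x hx.1
    obtain ⟨h3, h4⟩ := h' x hx.2
    refine ⟨by rw [hmul]; exact mul_ne_zero h1 h3, ?_⟩
    show a.val _ x + b.val _ x = _
    rw [h2, h4, hadd, hmul, hmul, hmul]
    field_simp
  | sub a b iha ihb =>
    obtain ⟨P, Q, h⟩ := iha
    obtain ⟨P', Q', h'⟩ := ihb
    refine ⟨P * Q' - P' * Q, Q * Q', fun x hx => ?_⟩
    obtain ⟨h1, h2⟩ := h x hx.1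
    obtain ⟨h3, h4⟩ := h' x hx.2
    refine ⟨by rw [hmul]; exact mul_ne_zero h1 h3, ?_⟩
    show a.val _ x - b.val _ x = _
    rw [h2, h4, hsub, hmul, hmul, hmul]
    field_simp
  | mul a b iha ihb =>
    obtain ⟨P, Q, h⟩ := iha
    obtain ⟨P', Q', h'⟩ := ihb
    refine ⟨P * P', Q * Q', fun x hx => ?_⟩
    obtain ⟨h1, h2⟩ := h x hx.1
    obtain ⟨h3, h4⟩ := h' x hx.2
    refine ⟨by rw [hmul]; exact mul_ne_zero h1 h3, ?_⟩
    show a.val _ x * b.val _ x = _
    rw [h2, h4, hmul, hmul]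
    field_simp
  | div a b iha ihb =>
    obtain ⟨P, Q, h⟩ := iha
    obtain ⟨P', Q', h'⟩ := ihb
    refine ⟨P * Q', Q * P', fun x hx => ?_⟩
    obtain ⟨h1, h2⟩ := h x hx.1
    obtain ⟨h3, h4⟩ := h' x hx.2.1
    have h5 : ev c P' x ≠ 0 := by
      intro h0
      apply hx.2.2
      rw [h4, h0, zero_div]
    refine ⟨by rw [hmul]; exact mul_ne_zero h1 h5, ?_⟩
    show a.val _ x / b.val _ x = _
    rw [h2, h4, hmul, hmul]
    field_simp

/-- the key step: every quotient has a primitive on `I` which is a quotient of multiples of two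
superpositions. -/
theorem key {c : ℝ → ℝ} (hc : Adm c)
    (hcode : ∀ i : Idx, ∃ k N : ℕ, 0 < N ∧ ∀ x, (N : ℝ) * c (g k x) = base i c x)
    (P Q : MvPolynomial (Fin 3) ℤ) (I : Set ℝ) (hIo : IsOpen I) (hIc : I.OrdConnected)
    (hIne : I.Nonempty) (hQ : ∀ x ∈ I, ev c Q x ≠ 0) :
    ∃ F : ℝ → ℝ, (∀ x ∈ I, HasDerivAt F (ev c P x / ev c Q x) x) ∧
      ∃ k1 k2 N1 N2 : ℕ, 0 < N1 ∧ 0 < N2 ∧
        ∀ x ∈ I, (N2 : ℝ) * c (g k2 x) ≠ 0 ∧
          F x = ((N1 : ℝ) * c (g k1 x)) / ((N2 : ℝ) * c (g k2 x)) := by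
  obtain ⟨x0, hx0⟩ : ∃ x0 : ℚ, (x0 : ℝ) ∈ I := by
    exact (Rat.denseRange_cast (𝕜 := ℝ)).exists_mem_open hIo hIne
  obtain ⟨k1, N1, hN1, h1⟩ := hcode (P, Q, x0, true)
  obtain ⟨k2, N2, hN2, h2⟩ := hcode (P, Q, x0, false)
  have hqc : Continuous (ev c Q) := ev_cont hc.1 Q
  have hrc : Continuous (ev c P) := ev_cont hc.1 P
  refine ⟨fun x => ∫ t in (x0 : ℝ)..x, ev c P t / ev c Q t, ?_, k1, k2, N1, N2, hN1, hN2, ?_⟩
  · intro x hx
    have hseg : uIcc (x0 : ℝ) x ⊆ I := hIc.uIcc_subset hx0 hx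
    have hcon : ContinuousOn (fun t => ev c P t / ev c Q t) I :=
      hrc.continuousOn.div hqc.continuousOn hQ
    apply intervalIntegral.integral_hasDerivAt_right
    · exact (hcon.mono hseg).intervalIntegrable
    · exact hcon.stronglyMeasurableAtFilter hIo x hx
    · exact hcon.continuousAt (hIo.mem_nhds hx)
  · intro x hx
    have e1 : (N1 : ℝ) * c (g k1 x) = GG (ev c Q) (ev c P) (x0 : ℝ) x := by
      rw [h1]
      simp [base]
    have e2 : (N2 : ℝ) * c (g k2 x) = WW (ev c Q) (x0 : ℝ) x := by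
      rw [h2]
      simp [base]
    rw [e1, e2]
    have hseg : uIcc (x0 : ℝ) x ⊆ I := hIc.uIcc_subset hx0 hx
    have hmp : 0 < mm (ev c Q) (x0 : ℝ) x := by
      apply mm_pos hqc
      intro θ hθ
      apply hQ
      apply hseg
      have := (convex_uIcc (x0 : ℝ) x).add_smul_sub_mem (left_mem_uIcc) (right_mem_uIcc) hθ
      simpa [mul_comm] using this
    have hW : 0 < WW (ev c Q) (x0 : ℝ) x := by
      unfold WW
      positivity
    refine ⟨hW.ne', ?_⟩
    rw [GG_eq]
    field_simp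

/-- **Formal integration.** There are continuous functions `f_1, f_2, f_3 : ℝ → ℝ`, not all
identically zero (namely `f_1(x) = arctan x - 2`, `f_2(x) = arctan x + 2` and some `f_3` with
`|f_3| ≤ 1`), such that every rational combination `R` of them has, on every open interval
`I` on which `R` is defined, an indefinite integral `F` which agrees on `I` with a rational
combination of superpositions of `f_1, f_2, f_3`; in fact with
`M f_3(f_1^k(f_2(x))) / (N f_3(f_1^l(f_2(x))))`, where `M, N ≥ 1` are integers and `f_1^k` is the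
`k`-fold iterate of `f_1`. -/
theorem result :
    ∃ f : Fin 3 → ℝ → ℝ, (∀ i, Continuous (f i)) ∧ (∃ i x, f i x ≠ 0) ∧
      (∀ x, f 0 x = Real.arctan x - 2 ∧ f 1 x = Real.arctan x + 2 ∧ |f 2 x| ≤ 1) ∧
      ∀ (R : Expr (Fin 3)) (I : Set ℝ), IsOpen I → I.OrdConnected → I.Nonempty →
        (∀ x ∈ I, R.DefAt f x) →
        ∃ F : ℝ → ℝ, (∀ x ∈ I, HasDerivAt F (R.val f x) x) ∧ AgreesWithS f I F ∧
          ∃ k l M N : ℕ, 0 < M ∧ 0 < N ∧ ∀ x ∈ I, f 2 ((f 0)^[l] (f 1 x)) ≠ 0 ∧
            F x = (M * f 2 ((f 0)^[k] (f 1 x))) / (N * f 2 ((f 0)^[l] (f 1 x))) := by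
  obtain ⟨c, hc, hcode⟩ := exists_code
  refine ⟨fam c, fam_cont hc.1, ⟨0, 0, ?_⟩, fun x => ⟨rfl, rfl, hc.2 x⟩, ?_⟩
  · have : fam c 0 0 = s 0 := rfl
    rw [this]
    exact (s_neg 0).ne
  intro R I hIo hIc hIne hdef
  obtain ⟨P, Q, hPQ⟩ := quotient c R
  obtain ⟨F, hF, k1, k2, N1, N2, hN1, hN2, hS⟩ := key hc hcode P Q I hIo hIc hIne
    (fun x hx => (hPQ x (hdef x hx)).1)
  refine ⟨F, fun x hx => ?_, ?_, k1, k2, N1, N2, hN1, hN2, fun x hx => ?_⟩
  · rw [(hPQ x (hdef x hx)).2]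
    exact hF x hx
  rotate_left
  · obtain ⟨h1, h2⟩ := hS x hx
    exact ⟨right_ne_zero_of_mul h1, h2⟩
  · have hne : ∀ k : ℕ, (2 :: (List.replicate k (0 : Fin 3) ++ [1])) ≠ [] := fun k =>
      List.cons_ne_nil _ _
    have hsup : ∀ (k : ℕ) (x : ℝ),
        superposition (fam c) ⟨2 :: (List.replicate k (0 : Fin 3) ++ [1]), hne k⟩ x = c (g k x) := by
      intro k x
      show fam c 2 ((List.replicate k (0 : Fin 3) ++ [1]).foldr (fun j y => fam c j y) x) = _
      rw [foldr_path]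
      rfl
    obtain ⟨M1, rfl⟩ : ∃ M, N1 = M + 1 := ⟨N1 - 1, by omega⟩
    obtain ⟨M2, rfl⟩ : ∃ M, N2 = M + 1 := ⟨N2 - 1, by omega⟩
    refine ⟨.div (nfold (.var ⟨2 :: (List.replicate k1 (0 : Fin 3) ++ [1]), hne k1⟩) M1)
      (nfold (.var ⟨2 :: (List.replicate k2 (0 : Fin 3) ++ [1]), hne k2⟩) M2), fun x hx => ?_⟩
    obtain ⟨h1, h2⟩ := hS x hx
    obtain ⟨d1, v1⟩ := nfold_spec (superposition (fam c))
      ⟨2 :: (List.replicate k1 (0 : Fin 3) ++ [1]), hne k1⟩ M1 x
    obtain ⟨d2, v2⟩ := nfold_spec (superposition (fam c))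
      ⟨2 :: (List.replicate k2 (0 : Fin 3) ++ [1]), hne k2⟩ M2 x
    rw [hsup] at v1 v2
    push_cast at h1 h2
    refine ⟨⟨d1, d2, ?_⟩, ?_⟩
    · rw [v2]
      exact h1
    · rw [h2]
      show _ = (nfold _ M1).val _ x / (nfold _ M2).val _ x
      rw [v1, v2]

end Pool.Agent.Results.MP_75b936_an.FormalIntegration
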